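import Pool.Agent.helper70.MW.Body

/-!
# Mean width preserving symmetrizations which are not translation invariant

Such a symmetrization with respect to an `i`-dimensional subspace exists if and only if `i = 0`.
-/

set_option autoImplicit false

open MeasureTheory Metric Set Module
open scoped RealInnerProductSpace Pointwise
open Pool.Agent.helper70.MW

namespace Pool.Agent.Results.MP_182b9e_gt.ExistsIffOrigin

theorem no_example {n : ℕ} (hn : 2 ≤ n) {H : Submodule ℝ (EuclideanSpace ℝ (Fin n))}
    (hH : H ≠ ⊥) {B : Set (EuclideanSpace ℝ (Fin n)) → Prop}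
    (hB : B = IsConvexCompact ∨ B = IsConvexBody)
    {D : Set (EuclideanSpace ℝ (Fin n)) → Set (EuclideanSpace ℝ (Fin n))}
    (h1 : IsSymmetrization B H D) (h2 : IsMonotonic B D) (h3 : PreservesMeanWidth B D)
    (h4 : FixesSymm B H D) : TranslationInvariant B H D := by
  obtain ⟨x, hxH, hx0⟩ := H.ne_bot_iff.1 hH
  have hxn : 0 < ‖x‖ := norm_pos_iff.2 hx0
  obtain ⟨e, heH, he⟩ : ∃ e ∈ H, ‖e‖ = 1 :=
    ⟨‖x‖⁻¹ • x, H.smul_mem _ hxH, by
      rw [norm_smul, norm_inv, norm_norm, inv_mul_cancel₀ hxn.ne']⟩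
  have he0 : e ≠ 0 := by
    intro h
    rw [h, norm_zero] at he
    exact zero_ne_one he
  have hperp : 0 < finrank ℝ (perp e) := by
    have h5 := (ℝ ∙ e).finrank_add_finrank_orthogonal
    rw [finrank_span_singleton he0, finrank_euclideanSpace_fin] at h5
    change 0 < finrank ℝ (ℝ ∙ e)ᗮ
    omega
  have : Nontrivial (perp e) := Module.nontrivial_of_finrank_pos hperp
  obtain ⟨c, hc0, hc⟩ := exists_meanWidth_const n (by omega)
  intro K hK hKs y hy
  rcases hB with rfl | rfl
  · have hgood : Good H D :=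
      ⟨fun K hK => (h1 K hK).1, fun K hK => (h1 K hK).2, h2,
        fun K hK => by rw [hc _ (h1 K hK).1, hc _ hK, h3 K hK], h4⟩
    rw [hgood.main he heH hK hKs hy, h4 K hK hKs]
  · have hgood : GoodBody H D :=
      ⟨fun K hK => (h1 K hK).1, fun K hK => (h1 K hK).2, h2,
        fun K hK => by
          rw [hc _ (h1 K hK).1.convexCompact, hc _ hK.convexCompact, h3 K hK], h4⟩
    rw [hgood.main he heH hK hKs hy, h4 K hK hKs]

theorem example_origin {n : ℕ} (hn : 2 ≤ n)
    {B : Set (EuclideanSpace ℝ (Fin n)) → Prop}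
    (hB : B = IsConvexCompact ∨ B = IsConvexBody) :
    IsSymmetrization B (⊥ : Submodule ℝ (EuclideanSpace ℝ (Fin n))) csym ∧ IsMonotonic B csym ∧
      PreservesMeanWidth B csym ∧
      FixesSymm B (⊥ : Submodule ℝ (EuclideanSpace ℝ (Fin n))) csym ∧
        ¬ TranslationInvariant B (⊥ : Submodule ℝ (EuclideanSpace ℝ (Fin n))) csym := by
  have : Nontrivial (EuclideanSpace ℝ (Fin n)) := by
    have : Nonempty (Fin n) := ⟨⟨0, by omega⟩⟩
    infer_instance
  obtain ⟨c, hc0, hc⟩ := exists_meanWidth_const n (by omega)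
  have hcc : ∀ K, B K → IsConvexCompact K := by
    rcases hB with rfl | rfl
    · exact fun K hK => hK
    · exact fun K hK => hK.convexCompact
  have hball : B (closedBall 0 1) := by
    rcases hB with rfl | rfl
    · exact ball_body.convexCompact
    · exact ball_body
  refine ⟨fun K hK => ⟨?_, isSymm_csym (hcc K hK)⟩,
    fun K L hK hL h => csym_mono (hcc K hK) (hcc L hL) h, fun K hK => ?_,
    fun K hK hs => csym_fix (hcc K hK) hs, fun hcon => ?_⟩
  · rcases hB with rfl | rfl
    · exact csym_cc hK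
    · exact csym_body hK
  · have h1 := ballWidth_csym (hcc K hK)
    rw [hc _ (csym_cc (hcc K hK)), hc _ (hcc K hK)] at h1
    exact mul_left_cancel₀ hc0 h1
  · have hsymm : IsSymm (⊥ : Submodule ℝ (EuclideanSpace ℝ (Fin n))) (closedBall 0 1) := by
      rw [isSymm_bot_iff]
      simp
    let e₁ : EuclideanSpace ℝ (Fin n) := EuclideanSpace.single ⟨0, by omega⟩ 1
    let e₂ : EuclideanSpace ℝ (Fin n) := EuclideanSpace.single ⟨1, by omega⟩ 1
    have h1 : ‖e₁‖ = 1 := by simp [e₁]
    have h2 : ‖e₂‖ = 1 := by simp [e₂]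
    have h12 : ⟪e₁, e₂⟫ = 0 := by simp [e₁, e₂, EuclideanSpace.inner_single_left]
    have h3 := hcon _ hball hsymm ((3 : ℝ) • e₁) (by simp)
    rw [csym_fix (hcc _ hball) hsymm] at h3
    exact csym_not_invariant h1 h2 h12 h3

/-- For `0 ≤ i ≤ n - 2`, an `i`-dimensional subspace `H` of `ℝⁿ`, and `B` either the class of
nonempty compact convex sets or the class of convex bodies, there is a monotonic, mean width
preserving symmetrization on `B` which fixes all `H`-symmetric sets but is not invariant under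
translations orthogonal to `H` of `H`-symmetric sets if and only if `i = 0`. -/
theorem result (n i : ℕ) (hi : i + 2 ≤ n) (H : Submodule ℝ (EuclideanSpace ℝ (Fin n)))
    (hH : finrank ℝ H = i) (B : Set (EuclideanSpace ℝ (Fin n)) → Prop)
    (hB : B = IsConvexCompact ∨ B = IsConvexBody) :
    (∃ D : Set (EuclideanSpace ℝ (Fin n)) → Set (EuclideanSpace ℝ (Fin n)),
      IsSymmetrization B H D ∧ IsMonotonic B D ∧ PreservesMeanWidth B D ∧ FixesSymm B H D ∧
        ¬ TranslationInvariant B H D) ↔ i = 0 := by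
  constructor
  · rintro ⟨D, h1, h2, h3, h4, h5⟩
    by_contra hi0
    refine h5 (no_example (by omega) ?_ hB h1 h2 h3 h4)
    rintro rfl
    rw [finrank_bot] at hH
    exact hi0 hH.symm
  · intro hi0
    rw [hi0] at hH
    have hbot : H = ⊥ := Submodule.finrank_eq_zero.1 hH
    subst hbot
    exact ⟨csym, example_origin (by omega) hB⟩

end Pool.Agent.Results.MP_182b9e_gt.ExistsIffOrigin
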